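import Pool.Agent.Helper83.QM.Defs
import Pool.Agent.Helper35.BR.End
import Pool.Agent.Helper10.BR.Defs
import Pool.Agent.Helper49.QI.Defs
import Pool.Agent.Helper35.Rel.Final

/-!
# The final theorems: literal statements (do not import)
-/

set_option autoImplicit false

namespace Pool.Agent.Helper35.FIN

open MvPolynomial TensorProduct AlgebraicGeometry CategoryTheory
open Pool.Agent.Helper15 Pool.Agent.Helper65.CB Pool.Agent.Helper35.BR Pool.Agent.Helper35.Rel
open Pool.Agent.Helper49.QI Pool.Agent.Helper10.BR Pool.Agent.Helper49.QU Pool.Agent.Helper83.QM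

/-- **(I) over the affine space, intrinsic** -/
theorem final_A (K : Type) [Field K] [NumberField K] (n r s : ℕ) (N : Fin r → ℕ)
    (q : ∀ i : Fin r, Matrix (Fin (N i)) (Fin (N i)) (MvPolynomial (Fin n) K))
    (hq : ∀ i, (q i).IsSymm)
    (hq3 : ∀ i, ∃ f g : Fin 3 → Fin (N i), ((q i).submatrix f g).det ≠ 0)
    (A : Fin s → Type) [∀ j, Ring (A j)] [∀ j, Algebra (MvPolynomial (Fin n) K) (A j)]
    [∀ j, Module.Finite (MvPolynomial (Fin n) K) (A j)] (m : Fin s → ℕ)
    (hc : ∀ j, Algebra.IsCentral (FractionRing (MvPolynomial (Fin n) K))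
      (FractionRing (MvPolynomial (Fin n) K) ⊗[MvPolynomial (Fin n) K] A j))
    (hs : ∀ j, IsSimpleRing
      (FractionRing (MvPolynomial (Fin n) K) ⊗[MvPolynomial (Fin n) K] A j))
    (hm : ∀ j, Module.finrank (FractionRing (MvPolynomial (Fin n) K))
      (FractionRing (MvPolynomial (Fin n) K) ⊗[MvPolynomial (Fin n) K] A j) = m j ^ 2)
    (h : ∀ P : MvPolynomial (Fin n) (AlgebraicClosure K), Irreducible P →
      (∀ k : Fin n, (∀ k' < k, P.degreeOf k' = 0) → P.degreeOf k ≤ 3) ∨
      ((∀ i, SplitQ ((q i).map (MvPolynomial.map (algebraMap K (AlgebraicClosure K)))) P) ∧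
        ∀ j, UnrAt (K := K) P (A j))) :
    ∃ d : MvPolynomial (Fin n) K, d ≠ 0 ∧ ∀ (X : Scheme.{0}) (t : X ⟶ Spec (CommRingCat.of K)),
      DominatedOver K X (Spec (CommRingCat.of (Localization.Away
        (algebraMap (MvPolynomial (Fin n) K) (QH q (HomRing (MvPolynomial (Fin n) K) A m)) d)))) t
        (Spec.map (CommRingCat.ofHom (algebraMap K (Localization.Away
          (algebraMap (MvPolynomial (Fin n) K) (QH q (HomRing (MvPolynomial (Fin n) K) A m)) d))))) →
      PotentiallyDense K X t := by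
  sorry

/-- **(II) over `T × A ^ n`**: `I` is a homogeneous prime ideal with dense zeros, `a` cuts out the
small divisors, the algebras are Azumaya outside of them -/
theorem final_T (K : Type) [Field K] [NumberField K] (M n r s : ℕ)
    (I : Ideal (MvPolynomial (Fin M) K)) [I.IsPrime]
    (hI : ∀ f ∈ I, ∀ d : ℕ, homogeneousComponent d f ∈ I) (hI0 : ∃ k, X k ∉ I)
    (hd : DenseZeros I)
    (a : MvPolynomial (Fin n) (MvPolynomial (Fin M) K ⧸ I)) (N : Fin r → ℕ)
    (q : ∀ i : Fin r, Matrix (Fin (N i)) (Fin (N i))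
      (MvPolynomial (Fin n) (MvPolynomial (Fin M) K ⧸ I)))
    (hq : ∀ i, (q i).IsSymm)
    (A : Fin s → Type) [∀ j, Ring (A j)] [∀ j, Algebra (Localization.Away a) (A j)]
    [∀ j, IsAzumaya (Localization.Away a) (A j)] (m : Fin s → ℕ)
    (hm : ∀ j, Module.finrank (FractionRing (Localization.Away a))
      (FractionRing (Localization.Away a) ⊗[Localization.Away a] A j) = m j ^ 2)
    (h1 : ∀ ψ : (MvPolynomial (Fin M) K ⧸ I) →ₐ[K] AlgebraicClosure K,
      (∃ k, ψ (Ideal.Quotient.mk I (X k)) ≠ 0) →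
      MvPolynomial.map (ψ : (MvPolynomial (Fin M) K ⧸ I) →+* AlgebraicClosure K) a ≠ 0 ∧
      ∀ i, ∃ f g : Fin 3 → Fin (N i), (((q i).map (MvPolynomial.map
        (ψ : (MvPolynomial (Fin M) K ⧸ I) →+* AlgebraicClosure K))).submatrix f g).det ≠ 0)
    (h2 : ∀ P : MvPolynomial (Fin n) (FractionRing (MvPolynomial (Fin M) K ⧸ I)), Irreducible P →
      (P ∣ MvPolynomial.map (algebraMap _ (FractionRing (MvPolynomial (Fin M) K ⧸ I))) a ∨
      ∃ i, Minors ((q i).map (MvPolynomial.map
        (algebraMap _ (FractionRing (MvPolynomial (Fin M) K ⧸ I))))) P) →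
      ∀ k : Fin n, (∀ k' < k, P.degreeOf k' = 0) → P.degreeOf k ≤ 3) :
    ∃ d : MvPolynomial (Fin n) (MvPolynomial (Fin M) K ⧸ I), d ≠ 0 ∧
      ∀ (Y : Scheme.{0}) (t : Y ⟶ Spec (CommRingCat.of K)),
      DominatedOver K Y (Spec (CommRingCat.of (Localization.Away
        (algebraMap (Localization.Away a) (QH
          (fun i => (q i).map (algebraMap _ (Localization.Away a)))
          (HomRing (Localization.Away a) A m))
          (algebraMap _ (Localization.Away a) d))))) t
        (Spec.map (CommRingCat.ofHom (algebraMap K (Localization.Away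
          (algebraMap (Localization.Away a) (QH
          (fun i => (q i).map (algebraMap _ (Localization.Away a)))
          (HomRing (Localization.Away a) A m))
          (algebraMap _ (Localization.Away a) d)))))) →
      PotentiallyDense K Y t := by
  sorry

end Pool.Agent.Helper35.FIN
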